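import Pool.Agent.L7h49.PM.Def3

set_option autoImplicit false

/-! Project PM, part ALLP. -/

namespace Pool.Agent.L7h29.PM

open Pool.Agent.L7h49.PM

theorem s_ALLP (hN : S_NEIGH) : S_ALLP := by
  intro V G f C hR t X eta B hB
  have key : ∀ S : Finset (Fin t × Fin t), (∀ p ∈ S, p.1 ≠ p.2) →
      ∃ (X' : ℝ) (eta' : Fin t → ℝ) (B' : Fin t → Set V), (∀ k, B k ⊆ B' k) ∧
        St G f C X' eta' B' ∧ ∀ p ∈ S, ∃ u ∈ B' p.1, ∃ v ∈ B' p.2, G.Adj u v := by
    intro S
    induction S using Finset.induction_on with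
    | empty => intro _; exact ⟨X, eta, B, fun k => le_rfl, hB, by simp⟩
    | insert p S hp ih =>
      intro h
      obtain ⟨X1, e, B1, h0, h1, h2⟩ := ih (fun q hq => h q (Finset.mem_insert_of_mem hq))
      obtain ⟨X', e', B2, h3, h4, u, hu, v, hv, huv⟩ :=
        hN V G f C hR t X1 e B1 p.1 p.2 h1 (h p (Finset.mem_insert_self _ _))
      refine ⟨X', e', B2, fun k => (h0 k).trans (h3 k), h4, ?_⟩
      intro q hq
      rcases Finset.mem_insert.1 hq with rfl | hq
      · exact ⟨u, hu, v, hv, huv⟩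
      · obtain ⟨u, hu, v, hv, huv⟩ := h2 q hq
        exact ⟨u, h3 _ hu, v, h3 _ hv, huv⟩
  obtain ⟨X', e, B', h0, h1, h2⟩ := key (Finset.univ.filter (fun p => p.1 ≠ p.2))
    (by intro p hp; simpa using hp)
  exact ⟨X', e, B', h0, h1, fun i j hij => h2 (i, j) (by simpa using hij)⟩

end Pool.Agent.L7h29.PM
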