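import Pool.Agent.L7h49.PM.Def2

set_option autoImplicit false

/-! Project PM, parts GLUE and LIFTS. -/

namespace Pool.Agent.L7h29.PM

open Pool.Agent.L7h49.PM

theorem s_GLUE : S_GLUE := by
  intro V G f C hR t X X' eta eta' B N hB hX heta' hNc hNd hN hN1 hN2
  have hC : 1 ≤ C := hR.one
  refine ⟨?_, ?_, heta', ?_, ?_⟩
  · intro k
    obtain ⟨x, hx⟩ := hR.net (pt X (eta k))
    have h1 : x ∈ B k := hB.endp k x hx.le
    have h2 : x ∈ N k := hN1 k x hx.le
    exact SimpleGraph.induce_union_connected (hB.conn k).preconnected (hNc k).preconnected ⟨x, h1, h2⟩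
  · have key : ∀ k l, k ≠ l → ∀ w, w ∈ B k → w ∈ N l → False := by
      intro k l hkl w hw hw'
      obtain ⟨h1, h2⟩ := hB.right k w hw
      obtain ⟨h3, h4, _, _⟩ := hN l w hw'
      have h5 := abs_le.mp (h2 h3)
      have h6 := abs_le.mp (h4 h1)
      have h7 := hB.sep k l hkl
      have h8 : |eta k - eta l| ≤ 60 * C := by
        rw [abs_le]
        constructor <;> linarith [h5.1, h5.2, h6.1, h6.2]
      linarith
    intro k l hkl
    rw [Set.disjoint_left]
    rintro w (hw | hw) (hw' | hw')
    · exact Set.disjoint_left.mp (hB.disj k l hkl) hw hw'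
    · exact key k l hkl w hw hw'
    · exact key l k (Ne.symm hkl) w hw' hw
    · exact Set.disjoint_left.mp (hNd k l hkl) hw hw'
  · intro k w hw
    rcases hw with hw | hw
    · obtain ⟨h1, _⟩ := hB.right k w hw
      refine ⟨by linarith, fun h => ?_⟩
      exfalso
      linarith
    · obtain ⟨_, _, h3, h4⟩ := hN k w hw
      exact ⟨h3, h4⟩
  · intro k w hw
    exact Or.inr (hN2 k w hw)

end Pool.Agent.L7h29.PM
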