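import Pool.Agent.L7h49.PM.Def2

set_option autoImplicit false

/-! Project PM, part LIFTS. -/

namespace Pool.Agent.L7h29.PM

open Finset Pool.Agent.L7h49.PM

theorem s_LIFTS (hroute : S_ROUTE) : S_LIFTS := by
  classical
  intro V G f C hR t X theta H eta B hB hH
  have hC : 1 ≤ C := hR.one
  have key : ∀ (m : ℕ) (theta : ℝ), (univ.filter (fun k => theta < eta k)).card = m →
      ∃ B' : Fin t → Set V, (∀ k, B k ⊆ B' k) ∧
        St G f C (X + 100 * m * C) (fun k => if theta < eta k then eta k + H else eta k) B' := by
    intro m
    induction m with
    | zero =>
      intro theta h0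
      rw [Finset.card_eq_zero, Finset.filter_eq_empty_iff] at h0
      refine ⟨B, fun k => le_rfl, ?_⟩
      have e1 : (fun k => if theta < eta k then eta k + H else eta k) = eta := by
        funext k
        rw [if_neg (h0 (mem_univ k))]
      have e2 : X + 100 * ((0 : ℕ) : ℝ) * C = X := by simp
      rw [e1, e2]
      exact hB
    | succ m ih =>
      intro theta hm
      have hne : (univ.filter (fun k => theta < eta k)).Nonempty := by
        rw [← Finset.card_pos]; omega
      obtain ⟨k, hk, hmin⟩ := Finset.exists_min_image (univ.filter (fun k => theta < eta k)) eta hne
      rw [mem_filter] at hk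
      have hdist : ∀ l, l ≠ k → eta l ≠ eta k := by
        intro l hl h
        have h1 := hB.sep l k hl
        rw [h, sub_self, abs_zero] at h1
        linarith
      have hfil : univ.filter (fun l => eta k < eta l) =
          (univ.filter (fun l => theta < eta l)).erase k := by
        ext l
        simp only [mem_filter, mem_erase, mem_univ, true_and]
        constructor
        · intro h
          exact ⟨fun h2 => by rw [h2] at h; exact lt_irrefl _ h, hk.2.trans h⟩
        · rintro ⟨h1, h2⟩
          have h3 := hmin l (by rw [mem_filter]; exact ⟨mem_univ _, h2⟩)
          exact lt_of_le_of_ne h3 (fun h4 => hdist l h1 h4.symm)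
      have hcard : (univ.filter (fun l => eta k < eta l)).card = m := by
        rw [hfil, card_erase_of_mem (by rw [mem_filter]; exact hk), hm]
        omega
      obtain ⟨B1, hB1, hSt1⟩ := ih (eta k) hcard
      have hlow : ∀ l, l ≠ k → eta k < eta l → theta < eta l := fun l _ h => hk.2.trans h
      have hlow' : ∀ l, l ≠ k → ¬ eta k < eta l → ¬ theta < eta l := by
        intro l hl h h2
        have h3 := hmin l (by rw [mem_filter]; exact ⟨mem_univ _, h2⟩)
        exact h (lt_of_le_of_ne h3 (fun h4 => hdist l hl h4.symm))
      have hsame : ∀ l, l ≠ k → (if theta < eta l then eta l + H else eta l) =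
          (if eta k < eta l then eta l + H else eta l) := by
        intro l hl
        by_cases h : eta k < eta l
        · rw [if_pos h, if_pos (hlow l hl h)]
        · rw [if_neg h, if_neg (hlow' l hl h)]
      have hk2 : (if theta < eta k then eta k + H else eta k) = eta k + H := if_pos hk.2
      have hk1 : (if eta k < eta k then eta k + H else eta k) = eta k := if_neg (lt_irrefl _)
      have hkb : ∀ b, b ≠ k → eta k + H + 200 * C ≤ (if eta k < eta b then eta b + H else eta b) ∨
          (if eta k < eta b then eta b + H else eta b) + 200 * C ≤ eta k := by
        intro b hb
        have h1 := hB.sep b k hb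
        by_cases h : eta k < eta b
        · left
          rw [if_pos h]
          rw [abs_of_pos (sub_pos.mpr h)] at h1
          linarith
        · right
          rw [if_neg h]
          have h2 : eta b < eta k := lt_of_le_of_ne (not_lt.mp h) (hdist b hb)
          rw [abs_of_neg (sub_neg.mpr h2)] at h1
          linarith
      obtain ⟨B2, hB2, hSt2, _, _⟩ := hroute V G f C hR t (X + 100 * m * C)
        (X + 100 * ((m + 1 : ℕ) : ℝ) * C)
        (fun l => if eta k < eta l then eta l + H else eta l)
        (fun l => if theta < eta l then eta l + H else eta l) B1 hSt1
        (by push_cast; linarith)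
        (by
          intro l
          show (if eta k < eta l then eta l + H else eta l) ≤
            (if theta < eta l then eta l + H else eta l)
          by_cases hl : l = k
          · rw [hl, hk1, hk2]; linarith
          · rw [hsame l hl])
        (by
          intro a b hab
          show (if theta < eta a then eta a + H else eta a) + 200 * C ≤
              (if eta k < eta b then eta b + H else eta b) ∨
            (if theta < eta b then eta b + H else eta b) + 200 * C ≤
              (if eta k < eta a then eta a + H else eta a)
          by_cases ha : a = k
          · have hb : b ≠ k := fun h => hab (ha.trans h.symm)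
            rw [hsame b hb, ha, hk2, hk1]
            exact hkb b hb
          · by_cases hb : b = k
            · rw [hsame a ha, hb, hk2, hk1]
              exact (hkb a ha).symm
            · rw [hsame a ha, hsame b hb]
              have h1 := hSt1.sep a b hab
              rcases le_abs.mp h1 with h2 | h2
              · right; linarith
              · left; linarith)
      exact ⟨B2, fun l => (hB1 l).trans (hB2 l), hSt2⟩
  obtain ⟨B1, hB1, hSt1⟩ := key _ theta rfl
  have hmt : (((univ.filter (fun k => theta < eta k)).card : ℕ) : ℝ) ≤ t := by
    have h1 := Finset.card_filter_le (univ : Finset (Fin t)) (fun k => theta < eta k)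
    rw [Finset.card_univ, Fintype.card_fin] at h1
    exact_mod_cast h1
  obtain ⟨B2, hB2, hSt2, _, _⟩ := hroute V G f C hR t _ (X + 100 * (t + 1) * C)
    (fun k => if theta < eta k then eta k + H else eta k)
    (fun k => if theta < eta k then eta k + H else eta k) B1 hSt1
    (by nlinarith)
    (fun k => le_rfl)
    (by
      intro a b hab
      have h1 := hSt1.sep a b hab
      rcases le_abs.mp h1 with h2 | h2
      · right; linarith
      · left; linarith)
  exact ⟨B2, fun l => (hB1 l).trans (hB2 l), hSt2⟩

end Pool.Agent.L7h29.PM
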