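import Pool.Agent.L7h49.PM.Def4

set_option autoImplicit false

/-! Project PM, part MONB (adaptation of part MON of helper66). -/

namespace Pool.Agent.L7h29.PM

open Pool.Agent.L7h49.PM

/-- A vertex on a shortest walk. -/
theorem dist_split {V : Type} {G : SimpleGraph V} {a c w : V} (p : G.Walk a c)
    (hp : p.length = G.dist a c) (hw : w ∈ p.support) :
    G.dist a w + G.dist w c ≤ G.dist a c := by
  classical
  have h1 := congrArg SimpleGraph.Walk.length (p.take_spec hw)
  rw [SimpleGraph.Walk.length_append] at h1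
  have h2 := SimpleGraph.dist_le (p.takeUntil w hw)
  have h3 := SimpleGraph.dist_le (p.dropUntil w hw)
  omega

theorem ell {V : Type} {G : SimpleGraph V} {f : V → E2} {C R : ℝ} (hR : RoughB G f C R) {a c : V}
    (p : G.Walk a c) (hp : p.length = G.dist a c) :
    ∀ w ∈ {v | v ∈ p.support}, ‖f w - f a‖ + ‖f w - f c‖ ≤ ‖f a - f c‖ + 3 * C := by
  intro w hw
  have h1 : ((G.dist a w : ℕ) : ℝ) + ((G.dist w c : ℕ) : ℝ) ≤ ((G.dist a c : ℕ) : ℝ) := by
    exact_mod_cast dist_split p hp hw
  have h2 := abs_lt.1 (hR.near w a)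
  have h3 := abs_lt.1 (hR.near w c)
  have h4 := abs_lt.1 (hR.near a c)
  rw [SimpleGraph.dist_comm] at h2
  linarith [h2.1, h2.2, h3.1, h3.2, h4.1, h4.2]

theorem s_MONB (h : S_CROSSB) : S_MONB := by
  intro V G f C L hR hK y0 y1 t0 t1 hG a b c d ha hb hc hd
  obtain ⟨p, hp⟩ := hR.conn.exists_walk_length_eq_dist a c
  obtain ⟨q, hq⟩ := hR.conn.exists_walk_length_eq_dist b d
  by_cases hx : ∃ w, w ∈ p.support ∧ w ∈ q.support
  · obtain ⟨w, h1, h2⟩ := hx
    have e1 := dist_split p hp h1
    have e2 := dist_split q hq h2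
    have e3 := hR.conn.dist_triangle (u := a) (v := w) (w := d)
    have e4 := hR.conn.dist_triangle (u := b) (v := w) (w := c)
    omega
  · exfalso
    apply hK
    refine h V G f C L hR y0 y1 t0 t1 hG a b c d {v | v ∈ p.support} {v | v ∈ q.support}
      ha hb hc hd p.start_mem_support p.end_mem_support q.start_mem_support q.end_mem_support
      p.connected_induce_support q.connected_induce_support ?_ (ell hR p hp) (ell hR q hq)
    rw [Set.disjoint_left]
    intro w h1 h2
    exact hx ⟨w, h1, h2⟩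

end Pool.Agent.L7h29.PM
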